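import Pool.Agent.helper29.JZ.Spec

/-!
# Project jz (MP_3221a1_ag), row HME: the homogenisation
-/

set_option autoImplicit false

open Finset Polynomial Module

namespace Pool.Agent.helper29.JZ

noncomputable section

open Pool.Agent.helper97.FP FP97

lemma hme1 (n : ℕ) (F P Q : ℂ[X]) (c : ℂ) : (hm n F P Q).eval c = hz n F (P.eval c) (Q.eval c) := by
  unfold hm hz
  rw [eval_finsetSum]
  refine Finset.sum_congr rfl fun k _ => ?_
  rw [eval_mul, eval_mul, eval_C, eval_pow, eval_pow]

lemma hme2 (n : ℕ) (F : ℂ[X]) (u w : ℂ) (hF : F.natDegree ≤ n) : hz n F u (w * u) = u ^ n * F.eval w := by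
  unfold hz
  rw [eval_eq_sum_range' (Nat.lt_succ_of_le hF), Finset.mul_sum]
  refine Finset.sum_congr rfl fun k hk => ?_
  rw [Finset.mem_range] at hk
  have e : u ^ n = u ^ k * u ^ (n - k) := by rw [← pow_add]; congr 1; omega
  rw [e, mul_pow]
  ring

lemma hme3 (n d : ℕ) (F P Q : ℂ[X]) (hP : P.natDegree ≤ d) (hQ : Q.natDegree ≤ d) :
    (hm n F P Q).coeff (n * d) = hz n F (P.coeff d) (Q.coeff d) := by
  unfold hm hz
  rw [finsetSum_coeff]
  refine Finset.sum_congr rfl fun k hk => ?_
  rw [Finset.mem_range] at hk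
  have e : n * d = k * d + (n - k) * d := by rw [← add_mul]; congr 1; omega
  rw [mul_assoc, coeff_C_mul, e]
  rw [coeff_mul_add_eq_of_natDegree_le (natDegree_pow_le_of_le k hQ) (natDegree_pow_le_of_le (n - k) hP)]
  rw [coeff_pow_of_natDegree_le hQ, coeff_pow_of_natDegree_le hP]
  ring

lemma hme4 (n d : ℕ) (F P Q : ℂ[X]) (hP : P.natDegree ≤ d) (hQ : Q.natDegree ≤ d) :
    (hm n F P Q).natDegree ≤ n * d := by
  unfold hm
  refine natDegree_sum_le_of_forall_le _ _ fun k hk => ?_
  rw [Finset.mem_range] at hk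
  have e : n * d = k * d + (n - k) * d := by rw [← add_mul]; congr 1; omega
  rw [mul_assoc]
  refine (natDegree_C_mul_le _ _).trans ?_
  rw [e]
  refine natDegree_mul_le.trans (Nat.add_le_add (natDegree_pow_le_of_le k hQ) (natDegree_pow_le_of_le (n - k) hP))

lemma hz_zero (n : ℕ) (F : ℂ[X]) (v : ℂ) : hz n F 0 v = F.coeff n * v ^ n := by
  unfold hz
  rw [Finset.sum_range_succ, Nat.sub_self, pow_zero, mul_one]
  rw [Finset.sum_eq_zero, zero_add]
  intro k hk
  rw [Finset.mem_range] at hk
  rw [zero_pow (by omega), mul_zero]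

lemma hme5 (F G : ℂ[X]) (u v : ℂ) (hFG : IsCoprime F G) (huv : u ≠ 0 ∨ v ≠ 0) :
    hz (max F.natDegree G.natDegree) F u v ≠ 0 ∨ hz (max F.natDegree G.natDegree) G u v ≠ 0 := by
  by_contra hcon
  push Not at hcon
  obtain ⟨h1, h2⟩ := hcon
  by_cases hu : u = 0
  · subst hu
    have hv : v ≠ 0 := huv.resolve_left (fun h => h rfl)
    rw [hz_zero] at h1 h2
    have h1' := (mul_eq_zero.mp h1).resolve_right (pow_ne_zero _ hv)
    have h2' := (mul_eq_zero.mp h2).resolve_right (pow_ne_zero _ hv)
    have hF : F.natDegree = max F.natDegree G.natDegree → F = 0 := by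
      intro h
      rw [← h] at h1'
      exact leadingCoeff_eq_zero.mp h1'
    have hG : G.natDegree = max F.natDegree G.natDegree → G = 0 := by
      intro h
      rw [← h] at h2'
      exact leadingCoeff_eq_zero.mp h2'
    rcases le_total F.natDegree G.natDegree with hle | hle
    · have hG0 : G = 0 := hG (max_eq_right hle).symm
      have hF0 : F = 0 := by
        apply hF
        rw [hG0, natDegree_zero] at hle ⊢
        omega
      rw [hF0, hG0] at hFG
      exact not_isCoprime_zero_zero hFG
    · have hF0 : F = 0 := hF (max_eq_left hle).symm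
      have hG0 : G = 0 := by
        apply hG
        rw [hF0, natDegree_zero] at hle ⊢
        omega
      rw [hF0, hG0] at hFG
      exact not_isCoprime_zero_zero hFG
  · have e : v = (v / u) * u := by field_simp
    rw [e, hme2 _ _ _ _ (le_max_left _ _)] at h1
    rw [e, hme2 _ _ _ _ (le_max_right _ _)] at h2
    have h1' := (mul_eq_zero.mp h1).resolve_left (pow_ne_zero _ hu)
    have h2' := (mul_eq_zero.mp h2).resolve_left (pow_ne_zero _ hu)
    obtain ⟨A, B, hAB⟩ := hFG
    have := congrArg (Polynomial.eval (v / u)) hAB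
    rw [eval_add, eval_mul, eval_mul, h1', h2', mul_zero, mul_zero, add_zero, eval_one] at this
    exact zero_ne_one this

theorem jz_HME : HME_stmt := ⟨hme1, hme2, hme3, hme4, hme5⟩

end

end Pool.Agent.helper29.JZ
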