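import Pool.Agent.helper29.JZ.Spec

/-!
# Project jz (MP_3221a1_ag), row RWF: the formulas for the first two rows and the border
-/

set_option autoImplicit false

open Finset Polynomial Module

namespace Pool.Agent.helper29.JZ

noncomputable section

open Pool.Agent.helper97.FP FP97

namespace RWFaux

variable {h : ℕ} (n : Fin h → ℕ) (S : Finset (Fin h))

/-- all single -/
def L : ℕ := (univ.filter fun k => n k = 1).card
/-- hit single -/
def T : ℕ := (S.filter fun k => n k = 1).card
/-- single, not hit -/
def U : ℕ := (univ.filter fun k => k ∉ S ∧ n k = 1).card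

lemma UT : U n S + T n S = L n := by
  unfold U T L
  have e : (univ.filter fun k => n k = 1) = (univ.filter fun k => k ∉ S ∧ n k = 1) ∪ (S.filter fun k => n k = 1) := by
    ext k
    simp only [Finset.mem_filter, Finset.mem_univ, true_and, Finset.mem_union]
    tauto
  rw [e, Finset.card_union_of_disjoint]
  rw [Finset.disjoint_left]
  intro k hk hk'
  simp only [Finset.mem_filter, Finset.mem_univ, true_and] at hk hk'
  exact hk.1 hk'.1

lemma U_sum : U n S = ∑ k, if (k ∉ S ∧ n k = 1) then 1 else 0 := by
  rw [U, Finset.card_filter]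

lemma sum_two : ∑ _k : Fin h, 2 = 2 * h := by
  rw [Finset.sum_const, Finset.card_univ, Fintype.card_fin, smul_eq_mul, mul_comm]

lemma delta_zero (hn : ∀ k, 1 ≤ n k) :
    (∑ k, if k ∈ S then 2 else if 2 * n k ≤ 0 then 0 else if n k ≤ 0 then 1 else 2) = 2 * h := by
  rw [← sum_two]
  refine Finset.sum_congr rfl fun k _ => ?_
  have := hn k
  split_ifs <;> omega

lemma delta_one (hn : ∀ k, 1 ≤ n k) :
    (∑ k, if k ∈ S then 2 else if 2 * n k ≤ 1 then 0 else if n k ≤ 1 then 1 else 2) + U n S = 2 * h := by
  rw [U_sum, ← sum_two, ← Finset.sum_add_distrib]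
  refine Finset.sum_congr rfl fun k _ => ?_
  have := hn k
  by_cases c : k ∈ S
  · simp [c]
  · simp only [c, if_false, not_false_eq_true, true_and]
    split_ifs <;> omega

lemma delta_two (j : ℕ) (hj : 2 ≤ j) :
    (∑ k, if k ∈ S then 2 else if 2 * n k ≤ j then 0 else if n k ≤ j then 1 else 2) + 2 * U n S ≤ 2 * h := by
  rw [U_sum, Finset.mul_sum, ← sum_two (h := h), ← Finset.sum_add_distrib]
  refine Finset.sum_le_sum fun k _ => ?_
  by_cases c : k ∈ S
  · simp [c]
  · simp only [c, if_false, not_false_eq_true, true_and]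
    split_ifs <;> omega

lemma conds_zero (hn : ∀ k, 1 ≤ n k) : conds n 0 = 2 * h := by
  unfold conds
  rw [← sum_two]
  refine Finset.sum_congr rfl fun k _ => ?_
  have := hn k
  omega

lemma conds_one (hn : ∀ k, 1 ≤ n k) : conds n 1 + L n = 4 * h := by
  have e : (4 : ℕ) * h = 2 * h + 2 * h := by ring
  unfold conds L
  rw [Finset.card_filter, ← Finset.sum_add_distrib, e, ← sum_two, ← Finset.sum_add_distrib]
  refine Finset.sum_congr rfl fun k _ => ?_
  have := hn k
  split_ifs <;> omega

lemma min_two (hn : ∀ k, 1 ≤ n k) : ∑ k, min 2 (n k) + L n = 2 * h := by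
  unfold L
  rw [Finset.card_filter, ← Finset.sum_add_distrib, ← sum_two]
  refine Finset.sum_congr rfl fun k _ => ?_
  have := hn k
  split_ifs <;> omega

end RWFaux

open RWFaux in
theorem jz_RWF : RWF_stmt := by
  intro hCOL h h' x y M P Q a hx hy hcol hC i j hij
  obtain ⟨c1, c2, c3, c4⟩ := hCOL h h' x y M hy
  have hB : ∀ k, 1 ≤ (BB y M k).card := fun k => by rw [c1]; exact hcol k
  have hn : (fun k => (BB y M k).card) = fun k => col M k := funext c1
  have he := hC.eq
  have hle := hC.le
  have href : 2 * max P.natDegree Q.natDegree + (Sing (BB y M)).card ≤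
      2 * (SH x (BB y M) P Q).card := by
    rw [c3, c4]; omega
  have hL : L (fun k => col M k) = (PA M).card := by
    rw [← c3, Sing, L]
    simp only [c1]
  have hT : T (fun k => col M k) (HS x (BB y M) P Q) = (HC x y M P Q).card := by
    rw [← c4 P Q, SH_eq, T]
    simp only [c1]
  have hmin := min_two (fun k => col M k) hcol
  have hUT := UT (fun k => col M k) (HS x (BB y M) P Q)
  rw [hL] at hmin hUT
  rw [hT] at hUT
  have hmain := main_aff hx hB hC.cop href i j (by
    rcases hij with hij | hij
    · exact Or.inl hij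
    · right
      have : (∑ k, min 2 (BB y M k).card) = ∑ k, min 2 (col M k) := by simp only [c1]
      rw [this]
      omega)
  unfold AH
  rw [DV_eq_WW c2, hmain, hn]
  have hc1 := conds_one (fun k => col M k) hcol
  rw [hL] at hc1
  unfold Phi gam
  rcases Nat.lt_or_ge j 2 with hj2 | hj2
  · interval_cases j
    · have h1 := delta_zero (fun k => col M k) (HS x (BB y M) P Q) hcol
      have h2 := conds_zero (fun k => col M k) hcol
      rw [if_neg (by norm_num), if_pos rfl, h1, h2]
      omega
    · have h1 := delta_one (fun k => col M k) (HS x (BB y M) P Q) hcol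
      rw [if_pos rfl, if_neg (by norm_num), if_pos rfl]
      beta_reduce at h1 ⊢
      generalize (∑ k, if k ∈ HS x (BB y M) P Q then 2 else if 2 * col M k ≤ 1 then 0 else
        if col M k ≤ 1 then 1 else 2) = D at h1 ⊢
      omega
  · have h1 := delta_two (fun k => col M k) (HS x (BB y M) P Q) j hj2
    rw [if_neg (by omega), if_neg (by omega), if_neg (by omega)]
    beta_reduce at h1 ⊢
    generalize (∑ k, if k ∈ HS x (BB y M) P Q then 2 else if 2 * col M k ≤ j then 0 else
        if col M k ≤ j then 1 else 2) = D at h1 ⊢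
    have h2 : 2 * max P.natDegree Q.natDegree ≤ max P.natDegree Q.natDegree * j := by
      rw [mul_comm]; exact Nat.mul_le_mul_left _ hj2
    have h3 : conds (fun k => col M k) j = ∑ k, (min (j + 1) (2 * col M k) + min (j + 1) (col M k)) := rfl
    rw [← h3]
    have hij' : 2 * h ≤ i + 1 + a := by
      rcases hij with hij | hij
      · omega
      · exact hij
    omega

end

end Pool.Agent.helper29.JZ
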