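import Pool.Agent.helper29.JZ.Spec
import Pool.Agent.helper29.JZ.HME
import Pool.Agent.helper29.JZ.RWF
import Pool.Agent.helper10.JZ.CRS
import Pool.Agent.helper13.JZ.TFO
import Pool.Agent.helper16.JZ.COL
import Pool.Agent.helper16.JZ.HOR
import Pool.Agent.helper16.JZ.PT1
import Pool.Agent.helper16.JZ.PT2
import Pool.Agent.helper16.JZ.SEL
import Pool.Agent.helper2.JZ.RE2
import Pool.Agent.helper22.JZ.RE3
import Pool.Agent.helper25.JZ.RZ2
import Pool.Agent.helper31.JZ.DIA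
import Pool.Agent.helper34.JZ.HZL
import Pool.Agent.helper45.JZ.HIL
import Pool.Agent.helper46.JZ.EXM
import Pool.Agent.helper48.JZ.OMG
import Pool.Agent.helper52.JZ.EXC
import Pool.Agent.helper67.JZ.RE1
import Pool.Agent.helper77.JZ.CNT
import Pool.Agent.helper78.JZ.TRB
import Pool.Agent.helper79.JZ.REA
import Pool.Agent.helper8.JZ.TRA
import Pool.Agent.helper82.JZ.ROT
import Pool.Agent.helper83.JZ.RZ1
import Pool.Agent.helper88.JZ.JNT
import Pool.Agent.helper89.JZ.SWP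
import Pool.Agent.helper98.JZ.ED0

/-!
# Project jz (MP_3221a1_ag): assembly
-/

set_option autoImplicit false

open Finset Polynomial Module

namespace Pool.Agent.helper29.JZ

open Pool.Agent.helper97.FP FP97

theorem hTRA : TRA_stmt := Pool.Agent.helper8.JZ.jz_TRA
theorem hTRB : TRB_stmt := Pool.Agent.helper78.JZ.jz_TRB
theorem hCOL : COL_stmt := Pool.Agent.helper16.JZ.jz_COL
theorem hSWP : SWP_stmt := Pool.Agent.helper89.JZ.jz_SWP

theorem hTFO : ∀ (h h' : ℕ) (x : Fin h → ℂ) (y : Fin h' → ℂ) (M : Finset (Fin h × Fin h')) (P Q P' Q' : ℂ[X]) (a b : ℕ),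
    Function.Injective x → Function.Injective y → (∀ k, 1 ≤ col M k) → (∀ m, 1 ≤ row M m) →
    Cv x y M P Q a → Cv y x (tr M) P' Q' b →
    ∀ i j, (i ≤ 1 ∨ j ≤ 1 ∨ 2 * h ≤ i + 1 + a ∨ 2 * h' ≤ j + 1 + b) → AH (ZZ x y M) i j = Theta M a b i j :=
  Pool.Agent.helper13.JZ.jz_TFO hCOL jz_RWF hSWP hTRA hTRB

theorem hJNT : ∀ (h h' : ℕ) (x : Fin h → ℂ) (y : Fin h' → ℂ) (M : Finset (Fin h × Fin h')) (P Q P' Q' : ℂ[X]) (a b : ℕ),
    Function.Injective x → Function.Injective y → Cv x y M P Q a → Cv y x (tr M) P' Q' b → Jt M a b :=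
  Pool.Agent.helper88.JZ.jz_JNT hTRA hTRB Pool.Agent.helper98.JZ.jz_ED0 jz_HME Pool.Agent.helper77.JZ.jz_CNT
    Pool.Agent.helper83.JZ.jz_RZ1 Pool.Agent.helper25.JZ.jz_RZ2 Pool.Agent.helper31.JZ.jz_DIA

theorem hOne : One :=
  Pool.Agent.helper16.JZ.jz_PT1 Pool.Agent.helper46.JZ.jz_EXM hTRA hTRB (Pool.Agent.helper52.JZ.jz_EXC hCOL)
    (Pool.Agent.helper16.JZ.jz_HOR Pool.Agent.helper10.JZ.jz_CRS) hJNT hTFO

theorem hTwo : Two :=
  Pool.Agent.helper16.JZ.jz_PT2 (Pool.Agent.helper79.JZ.jz_REA hTRA hTRB Pool.Agent.helper34.JZ.jz_HZL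
    (Pool.Agent.helper67.JZ.jz_RE1 Pool.Agent.helper82.JZ.jz_ROT)
    (Pool.Agent.helper2.JZ.jz_RE2 Pool.Agent.helper82.JZ.jz_ROT Pool.Agent.helper48.JZ.jz_OMG hTRA hTRB)
    (Pool.Agent.helper22.JZ.jz_RE3 Pool.Agent.helper16.JZ.jz_SEL hTRA hTRB)) hTFO

theorem hFin : Fin_stmt := by
  intro r
  constructor
  · intro Y hY
    obtain ⟨Z, hZ, hH⟩ := Pool.Agent.helper45.JZ.jz_HIL.1 Y
    obtain ⟨h, h', M, a, b, hJ, hT⟩ := hOne Z
    rw [hZ, hY] at hJ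
    exact ⟨h, h', M, a, b, hJ, fun i j hij => (hH i j).trans (hT i j hij)⟩
  · intro h h' M a b hJ
    obtain ⟨Z, hZ, hT⟩ := hTwo h h' M a b r hJ
    obtain ⟨Y, hY, hH⟩ := Pool.Agent.helper45.JZ.jz_HIL.2 Z
    exact ⟨Y, hY.trans hZ, fun i j hij => (hH i j).trans (hT i j hij)⟩

end Pool.Agent.helper29.JZ
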