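import Pool.Agent.helper97.FP.Main

/-!
# Project jz (MP_3221a1_ag): both rulings together. Definitions

Double points at `Y ⊂ ℙ¹ × ℙ¹`; the restrictions of the Hilbert functions to the first two rows, the first two columns and
the borders, both rulings at the same time.

`M` is the incidence matrix of `Y`: `(k, m) ∈ M` if the point of intersection of the vertical line number `k` and the
horizontal line number `m` is in `Y`. `PA M` = points alone in their column, `PB M` = points alone in their row.
Coordinates: `x : Fin h → ℂ` (columns), `y : Fin h' → ℂ` (rows). A curve is given by a coprime pair `(P, Q)`: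
`P(x) y = Q(x)`; `max (deg P) (deg Q)` is its degree `e` (bidegree `(e,1)`).
-/

set_option autoImplicit false

open Finset Polynomial Module

namespace Pool.Agent.helper29.JZ

noncomputable section

section Comb
variable {h h' : ℕ} (M : Finset (Fin h × Fin h'))

/-- number of points in the column `k` -/
def col (k : Fin h) : ℕ := (M.filter fun z => z.1 = k).card

/-- number of points in the row `m` -/
def row (m : Fin h') : ℕ := (M.filter fun z => z.2 = m).card

/-- the points which are alone in their column -/
def PA : Finset (Fin h × Fin h') := M.filter fun z => col M z.1 = 1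

/-- the points which are alone in their row -/
def PB : Finset (Fin h × Fin h') := M.filter fun z => row M z.2 = 1

/-- the maximal number of points of `PA M` in one row -/
def mA : ℕ := univ.sup fun m : Fin h' => ((PA M).filter fun z => z.2 = m).card

/-- the maximal number of points of `PB M` in one column -/
def mB : ℕ := univ.sup fun k : Fin h => ((PB M).filter fun z => z.1 = k).card

/-- number of rows with at least two points which contain a point of `PA M` -/
def sA : ℕ := (univ.filter fun m : Fin h' => 2 ≤ row M m ∧ ∃ z ∈ PA M, z.2 = m).card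

/-- number of columns with at least two points which contain a point of `PB M` -/
def sB : ℕ := (univ.filter fun k : Fin h => 2 ≤ col M k ∧ ∃ z ∈ PB M, z.1 = k).card

/-- the joint condition -/
def Jt (a b : ℕ) : Prop :=
  (PA M ∩ PB M).card ≤ a * b + 1 ∨
    ∃ p α β : ℕ, p ≤ (PA M ∩ PB M).card ∧ a = 1 + p + α ∧ b = 1 + p + β ∧
      α ≤ (PA M \ PB M).card ∧ (PA M \ PB M).card ≤ sA M + α ∧
      β ≤ (PB M \ PA M).card ∧ (PB M \ PA M).card ≤ sB M + β

/-- the data `(M, a, b)` for `r` points -/
structure Joint (a b r : ℕ) : Prop where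
  card : M.card = r
  cols : ∀ k, 1 ≤ col M k
  rows : ∀ m, 1 ≤ row M m
  a_le : 2 * a ≤ (PA M).card
  a_eq : mA M ≤ a ∨ a + mA M = (PA M).card
  b_le : 2 * b ≤ (PB M).card
  b_eq : mB M ≤ b ∨ b + mB M = (PB M).card
  joint : Jt M a b

/-- the explicit functions -/
def Theta (a b i j : ℕ) : ℕ :=
  if j = 0 then min (i + 1) (2 * h)
  else if i = 0 then min (j + 1) (2 * h')
  else if j = 1 then min (i + 1) (2 * h - a) + min (i + 1) (2 * h - (PA M).card + a)
  else if i = 1 then min (j + 1) (2 * h' - b) + min (j + 1) (2 * h' - (PB M).card + b)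
  else if 2 * h ≤ i + 1 + a then ∑ k, (min (j + 1) (2 * col M k) + min (j + 1) (col M k))
  else ∑ m, (min (i + 1) (2 * row M m) + min (i + 1) (row M m))

/-- the transposed matrix -/
def tr : Finset (Fin h' × Fin h) := M.image Prod.swap

end Comb

section Geo
variable {h h' : ℕ} (x : Fin h → ℂ) (y : Fin h' → ℂ) (M : Finset (Fin h × Fin h'))

/-- the second coordinates of the points in the column `k` -/
def BB (k : Fin h) : Finset ℂ := (M.filter fun z => z.1 = k).image fun z => y z.2

/-- the configuration -/
def ZZ : Finset (ℂ × ℂ) := M.image fun z => (x z.1, y z.2)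

open Classical in
/-- the points of `PA M` on the curve `P(x) y = Q(x)` -/
def HC (P Q : ℂ[X]) : Finset (Fin h × Fin h') :=
  (PA M).filter fun z => P.eval (x z.1) * y z.2 = Q.eval (x z.1)

open Classical in
/-- the points of `PB M` on the curve `P(y) x = Q(y)` -/
def HB (P Q : ℂ[X]) : Finset (Fin h × Fin h') :=
  (PB M).filter fun z => P.eval (y z.2) * x z.1 = Q.eval (y z.2)

/-- `(P, Q)` is a coprime pair with `e + |PA M \ C| = a` and `2 a ≤ |PA M|`. -/
structure Cv (P Q : ℂ[X]) (a : ℕ) : Prop where
  cop : IsCoprime P Q
  eq : max P.natDegree Q.natDegree + (PA M).card = a + (HC x y M P Q).card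
  le : 2 * a ≤ (PA M).card

end Geo

/-- homogenisation of degree `n` of `F`, evaluated at `(P, Q)`: `P^n F(Q / P)` -/
def hm (n : ℕ) (F P Q : ℂ[X]) : ℂ[X] :=
  ∑ k ∈ range (n + 1), C (F.coeff k) * Q ^ k * P ^ (n - k)

/-- the equation of the points of intersection of `P(x) y = Q(x)` and `P'(y) x = Q'(y)` -/
def RR (P Q P' Q' : ℂ[X]) : ℂ[X] :=
  X * hm (max P'.natDegree Q'.natDegree) P' P Q - hm (max P'.natDegree Q'.natDegree) Q' P Q

end

end Pool.Agent.helper29.JZ
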