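import Pool.Agent.helper29.JZ.Defs

/-!
# Project jz (MP_3221a1_ag): the rows

`theorem jz_XX : XX_stmt` in `Pool/Agent/<seat>/JZ/XX.lean` (namespace `Pool.Agent.<seat>.JZ`), importing only this file (and
Mathlib / the files it imports). Rows are proved independently of each other: a row which uses another one has it as a
hypothesis. Every docstring contains a complete proof.

Throughout `l = |PA M|`, `l' = |PB M|`, `t = |HC x y M P Q|`, `e = max (deg P) (deg Q)`; in `Cv` : `e + l = a + t`, and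
`t ≤ l` since `HC ⊆ PA` (a filter).
-/

set_option autoImplicit false

open Finset Polynomial Module

namespace Pool.Agent.helper29.JZ

noncomputable section

open Pool.Agent.helper97.FP FP97

/-- the value of the homogenisation: `∑_{k ≤ n} F_k v^k u^(n-k)` -/
def hz (n : ℕ) (F : ℂ[X]) (u v : ℂ) : ℂ := ∑ k ∈ range (n + 1), F.coeff k * v ^ k * u ^ (n - k)

/-- the affine Hilbert function -/
def AH (Z : Finset (ℂ × ℂ)) (i j : ℕ) : ℕ :=
  (i + 1) * (j + 1) - finrank ℂ (DV (Z : Set (ℂ × ℂ)) i j)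

/-! ### part A: formulas -/

/-- **COL**. The passage from `M` to the columns of `FP97`. `BB y M k` is the image of the points of the column `k` under
`z ↦ y z.2`, which is injective on the column (`z.1 = k`, `y` injective). For the two counts: for all `P, Q` the map
`z ↦ z.1` is a bijection from `HC x y M P Q` to `SH x (BB y M) P Q` (`mem_SH`: `|BB k| = 1` and
`∃ b ∈ BB k, Q(x_k) = b P(x_k)`): injective on `PA M` because the column `z.1` has only one point
(`card_eq_one`/`card_le_one` for `col M z.1 = 1`), onto by the definition of `BB`. The same for `PA M` and `Sing`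
(or take `P = Q = 0`). -/
def COL_stmt : Prop :=
  ∀ (h h' : ℕ) (x : Fin h → ℂ) (y : Fin h' → ℂ) (M : Finset (Fin h × Fin h')), Function.Injective y →
    (∀ k, (BB y M k).card = col M k) ∧
    (∀ z, z ∈ ((ZZ x y M : Finset (ℂ × ℂ)) : Set (ℂ × ℂ)) ↔ ∃ k, z.1 = x k ∧ z.2 ∈ BB y M k) ∧
    (Sing (BB y M)).card = (PA M).card ∧
    ∀ P Q : ℂ[X], (SH x (BB y M) P Q).card = (HC x y M P Q).card

/-- **RWF**. The formulas for the rows `j = 0`, `j = 1` and for large `i`. Take `B = BB y M`; `DV_eq_WW` (with the second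
part of COL) and `main_aff` (`2e + l ≤ 2t` follows from `e + l = a + t`, `2a ≤ l`; if `j ≥ 2` its condition
`∑ min 2 n_k ≤ i + 1` holds because `∑_k min 2 n_k = 2h - l`, `a ≤ l`): the left side is
`Phi n S e i j` with `n_k = col M k`, `S = HS x B P Q`. `SH = {k ∈ S, n_k = 1}` (`SH_eq`), so `u := l - t` is the number of
`k ∉ S` with `n_k = 1`, and `a = e + u`.
`j = 0`: `conds = 2h`, `gam = 2h` (all `δ_k = 2`): `2h - (2h - (i+1)) = min (i+1) (2h)`.
`j = 1`: `conds = 4h - l`, `gam = 2h - u - e = 2h - a` (`δ_k = 1` if `k ∉ S`, `n_k = 1`, otherwise `2`):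
`4h - l - (2h - a - (i+1)) - (2h - l + a - (i+1))`, which is the sum of the two minima (`l ≤ h`: `PA M` injects into `Fin h`).
`j ≥ 2`: `δ_k ≤ 2`, and `δ_k = 0` if `k ∉ S`, `n_k = 1`: `gam ≤ 2h - 2u - 2e = 2h - 2a ≤ i + 1`, so nothing is subtracted. -/
def RWF_stmt : Prop :=
  COL_stmt → ∀ (h h' : ℕ) (x : Fin h → ℂ) (y : Fin h' → ℂ) (M : Finset (Fin h × Fin h')) (P Q : ℂ[X]) (a : ℕ),
    Function.Injective x → Function.Injective y → (∀ k, 1 ≤ col M k) → Cv x y M P Q a →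
    ∀ i j, (j ≤ 1 ∨ 2 * h ≤ i + 1 + a) → AH (ZZ x y M) i j =
      if j = 0 then min (i + 1) (2 * h)
      else if j = 1 then min (i + 1) (2 * h - a) + min (i + 1) (2 * h - (PA M).card + a)
      else ∑ k, (min (j + 1) (2 * col M k) + min (j + 1) (col M k))

/-- **SWP**. Exchange of the factors: `finrank_DV_swap` with `Z = ZZ x y M`; `Prod.swap ⁻¹' Z = ZZ y x (tr M)`. -/
def SWP_stmt : Prop :=
  ∀ (h h' : ℕ) (x : Fin h → ℂ) (y : Fin h' → ℂ) (M : Finset (Fin h × Fin h')) (i j : ℕ),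
    AH (ZZ x y M) i j = AH (ZZ y x (tr M)) j i

/-- **TRA**. Transposition, first part. `z ∈ tr M ↔ z.swap ∈ M`; all sets of the left side are the images under
`Prod.swap` of the sets of the right side: `(tr M).filter (·.1 = m)` is the image of `M.filter (·.2 = m)`, so
`col (tr M) m = row M m` (`card_image_of_injective`), `row (tr M) k = col M k`, `PA (tr M) = (PB M).image swap`,
`PB (tr M) = (PA M).image swap`, `HC y x (tr M) P Q = (HB x y M P Q).image swap`. -/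
def TRA_stmt : Prop :=
  ∀ (h h' : ℕ) (M : Finset (Fin h × Fin h')), (tr M).card = M.card ∧ (∀ m, col (tr M) m = row M m) ∧
    (∀ k, row (tr M) k = col M k) ∧ PA (tr M) = (PB M).image Prod.swap ∧ PB (tr M) = (PA M).image Prod.swap ∧
    tr (tr M) = M ∧ ∀ (x : Fin h → ℂ) (y : Fin h' → ℂ) (P Q : ℂ[X]),
      HC y x (tr M) P Q = (HB x y M P Q).image Prod.swap

/-- **TRB**. Transposition, second part: from `PA (tr M) = (PB M).image swap`, `PB (tr M) = (PA M).image swap` (TRA).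
`mA`: `((tr ..).filter (·.2 = k)).card = ((PB M).filter (·.1 = k)).card` for every `k`, then `Finset.sup_congr`.
`sA`: the filters over `Fin h` are the same set. Intersections/differences: `Finset.image_inter`, `image_sdiff` for the
injective `Prod.swap`, then `card_image_of_injective`. -/
def TRB_stmt : Prop :=
  TRA_stmt → ∀ (h h' : ℕ) (M : Finset (Fin h × Fin h')), (PA (tr M)).card = (PB M).card ∧
    (PB (tr M)).card = (PA M).card ∧ mA (tr M) = mB M ∧ mB (tr M) = mA M ∧ sA (tr M) = sB M ∧ sB (tr M) = sA M ∧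
    (PA (tr M) ∩ PB (tr M)).card = (PA M ∩ PB M).card ∧
    (∀ (x : Fin h → ℂ) (y : Fin h' → ℂ) (P Q : ℂ[X]), (HC y x (tr M) P Q).card = (HB x y M P Q).card)

/-- **TFO**. The explicit functions. RWF for `(x, y, M)` at `(i, j)`, and RWF for `(y, x, tr M)` at `(j, i)` together with
SWP and TRA/TRB (`col (tr M) = row M`, `|PA (tr M)| = |PB M|`), then the five cases in the definition of `Theta` (at
`i, j ≥ 2`: if `2h ≤ i+1+a` fails, the hypothesis leaves `2h' ≤ j+1+b`). -/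
def TFO_stmt : Prop :=
  COL_stmt → RWF_stmt → SWP_stmt → TRA_stmt → TRB_stmt →
  ∀ (h h' : ℕ) (x : Fin h → ℂ) (y : Fin h' → ℂ) (M : Finset (Fin h × Fin h')) (P Q P' Q' : ℂ[X]) (a b : ℕ),
    Function.Injective x → Function.Injective y → (∀ k, 1 ≤ col M k) → (∀ m, 1 ≤ row M m) →
    Cv x y M P Q a → Cv y x (tr M) P' Q' b →
    ∀ i j, (i ≤ 1 ∨ j ≤ 1 ∨ 2 * h ≤ i + 1 + a ∨ 2 * h' ≤ j + 1 + b) → AH (ZZ x y M) i j = Theta M a b i j

/-- **EXC**. A curve exists: `exists_ref` for `B = BB y M` gives a coprime pair with `2e + l ≤ 2t`; `a := e + l - t`. -/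
def EXC_stmt : Prop :=
  COL_stmt → ∀ (h h' : ℕ) (x : Fin h → ℂ) (y : Fin h' → ℂ) (M : Finset (Fin h × Fin h')),
    Function.Injective x → Function.Injective y → ∃ (P Q : ℂ[X]) (a : ℕ), Cv x y M P Q a

/-! ### part B: the necessary conditions -/

/-- **CRS**. Two curves with many common points of `PA M` are proportional. `t₁ + t₂ ≤ l + |HC₁ ∩ HC₂|`
(`card_union_add_card_inter`, the union is a subset of `PA M`), so `T := (HC₁ ∩ HC₂).image (·.1)` has more than
`e₁ + e₂` elements (`z ↦ z.1` is injective on `PA M`: the column has only one point). `FP97.cross_eq_zero` with `b = y z.2`. -/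
def CRS_stmt : Prop :=
  ∀ (h h' : ℕ) (x : Fin h → ℂ) (y : Fin h' → ℂ) (M : Finset (Fin h × Fin h')) (P Q P₂ Q₂ : ℂ[X]),
    Function.Injective x →
    (PA M).card + (max P.natDegree Q.natDegree + max P₂.natDegree Q₂.natDegree) <
      (HC x y M P Q).card + (HC x y M P₂ Q₂).card → P * Q₂ = P₂ * Q

/-- **HOR**. Comparison with the horizontal line through `mA` points. If `mA M = 0` nothing is to show. Otherwise take `m`
with `mA M` points of `PA M` in the row `m` (`Finset.exists_mem_eq_sup` / `exists_max_image`), `P₂ = 1`, `Q₂ = C (y m)`,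
`e₂ = 0`, `HC x y M 1 (C (y m)) = (PA M).filter (·.2 = m)` (`y` injective). If `a < mA`: `t + mA = e + l - a + mA > l + e`,
so by CRS `P * C (y m) = Q`; `P ∣ Q` and `IsCoprime P Q`, so `P` is a unit, `e = 0`, `P.eval _ ≠ 0`, and
`P(x) y = Q(x) ↔ y = y_m`: `HC x y M P Q = HC x y M 1 (C (y m))`, `t = mA`, `0 + l = a + mA`. -/
def HOR_stmt : Prop :=
  CRS_stmt → ∀ (h h' : ℕ) (x : Fin h → ℂ) (y : Fin h' → ℂ) (M : Finset (Fin h × Fin h')) (P Q : ℂ[X]) (a : ℕ),
    Function.Injective x → Function.Injective y → Cv x y M P Q a → mA M ≤ a ∨ a + mA M = (PA M).card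

/-- **ED0**. If `e = 0` then `P, Q` are constants `p, q`, not both `0` (coprime), and the curve is empty or the line
`y = q / p`. Two points `z ≠ z'` of `PB M` are in different rows (`row M z.2 = 1`), `y` is injective: so at most one point
of `PA ∩ PB` is in `HC`, and `|PA ∩ PB| ≤ 1 + |PA \ HC| = 1 + l - t = 1 + a`. -/
def ED0_stmt : Prop :=
  ∀ (h h' : ℕ) (x : Fin h → ℂ) (y : Fin h' → ℂ) (M : Finset (Fin h × Fin h')) (P Q : ℂ[X]) (a : ℕ),
    Function.Injective y → Cv x y M P Q a → max P.natDegree Q.natDegree = 0 → (PA M ∩ PB M).card ≤ a + 1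

/-- **HME**. Values and top coefficient of the homogenisation. (1) evaluation of the sum. (2) `v = w u`:
`F_k (w u)^k u^(n-k) = u^n F_k w^k` for `k ≤ n`, and `eval_eq_sum_range'`. (3) `coeff_mul_of_natDegree_le`,
`coeff_pow_of_natDegree_le`, `coeff (d k + d (n-k))` of `Q^k * P^(n-k)` is `q^k p^(n-k)`. (4) `natDegree_sum_le_of_forall_le`,
`natDegree_mul_le`, `natDegree_pow_le`. (5) not both vanish at `(u,v) ≠ (0,0)`: if `u ≠ 0` put `w = v/u` and use (2):
`F(w) = G(w) = 0` contradicts coprimality; if `u = 0`, only the term `k = n` remains: `F_n v^n = G_n v^n = 0`, so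
`F_n = G_n = 0`, but `n` is the maximum of the degrees: if `n ≥ 1` one of the leading coefficients is at `n`, not `0`; if `n = 0`
both are constant, so both `0`, which is not coprime. -/
def HME_stmt : Prop :=
  (∀ (n : ℕ) (F P Q : ℂ[X]) (c : ℂ), (hm n F P Q).eval c = hz n F (P.eval c) (Q.eval c)) ∧
  (∀ (n : ℕ) (F : ℂ[X]) (u w : ℂ), F.natDegree ≤ n → hz n F u (w * u) = u ^ n * F.eval w) ∧
  (∀ (n d : ℕ) (F P Q : ℂ[X]), P.natDegree ≤ d → Q.natDegree ≤ d →
    (hm n F P Q).coeff (n * d) = hz n F (P.coeff d) (Q.coeff d)) ∧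
  (∀ (n d : ℕ) (F P Q : ℂ[X]), P.natDegree ≤ d → Q.natDegree ≤ d → (hm n F P Q).natDegree ≤ n * d) ∧
  (∀ (F G : ℂ[X]) (u v : ℂ), IsCoprime F G → (u ≠ 0 ∨ v ≠ 0) →
    hz (max F.natDegree G.natDegree) F u v ≠ 0 ∨ hz (max F.natDegree G.natDegree) G u v ≠ 0)

/-- **CNT**. For `z ∈ HC ∩ HB`, `c = x z.1`, `w = y z.2`: `Q(c) = w P(c)`, so by HME (1), (2)
`RR(c) = c P(c)^n P'(w) - P(c)^n Q'(w) = 0` (`n = e'`). The `x z.1` are different (points of `PA`), so
`|HC ∩ HB| ≤ |roots| ≤ deg RR ≤ 1 + e' e` by HME (4) (`card_roots'`, or `prod_pow_dvd` as in `cross_eq_zero`). -/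
def CNT_stmt : Prop :=
  HME_stmt → ∀ (h h' : ℕ) (x : Fin h → ℂ) (y : Fin h' → ℂ) (M : Finset (Fin h × Fin h')) (P Q P' Q' : ℂ[X]),
    Function.Injective x → RR P Q P' Q' ≠ 0 →
    (HC x y M P Q ∩ HB x y M P' Q').card ≤ max P'.natDegree Q'.natDegree * max P.natDegree Q.natDegree + 1

/-- **RZ1**. If `RR = 0` then `e e' = 1`. Write `F = hm e' P' P Q`, `G = hm e' Q' P Q`, so `X * F = G`.
`F` has no zero: at a zero `c` also `G(c) = 0`, i.e. `hz P' (P c) (Q c) = hz Q' (P c) (Q c) = 0`, but `(P c, Q c) ≠ (0,0)` by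
coprimality, against HME (5). So `F` is a constant `f ≠ 0` (`IsAlgClosed.exists_root`), `G = f X`.
Put `d = e`. If `e' e ≥ 2` then the coefficients of `F` and `G` at `e' e` are `0`; by HME (3) they are
`hz P' p q`, `hz Q' p q` with `p = P.coeff e`, `q = Q.coeff e`, and `(p,q) ≠ (0,0)` because `e` is the maximum of the degrees
(`e ≥ 1`: one of them is a leading coefficient): against HME (5). So `e' e ≤ 1`. If `e' = 0`: `P' = C p'`, `Q' = C q'`,
`F = C p'`, `G = C q'`, `X * C p' = C q'` gives `p' = q' = 0`, not coprime. As `e ≥ 1`: `e = e' = 1`. -/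
def RZ1_stmt : Prop :=
  HME_stmt → ∀ P Q P' Q' : ℂ[X], IsCoprime P Q → IsCoprime P' Q' → RR P Q P' Q' = 0 →
    1 ≤ max P.natDegree Q.natDegree → max P.natDegree Q.natDegree = 1 ∧ max P'.natDegree Q'.natDegree = 1

/-- **RZ2**. `RR = 0`, `e = e' = 1`: the two curves are the same. Here `hm 1 F P Q = C F₀ * P + C F₁ * Q`, so
`P * (C Q'₀ - X * C P'₀) = (X * C P'₁ - C Q'₁) * Q`, and by `prop_of_coprime` there is `c` with
`X * C P'₁ - C Q'₁ = P * c`, `C Q'₀ - X * C P'₀ = Q * c`. `c ≠ 0` (otherwise `P' = Q' = 0`, as they have degree `≤ 1`), and `c` has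
degree `0` because the left sides have degree `≤ 1` and `max (deg P) (deg Q) = 1`. For all `u, v`:
`P'(v) u - Q'(v) = (P'₀ u - Q'₀) + v (P'₁ u - Q'₁) = c(u) (P(u) v - Q(u))` and `c(u) ≠ 0`. -/
def RZ2_stmt : Prop :=
  ∀ P Q P' Q' : ℂ[X], IsCoprime P Q → IsCoprime P' Q' → RR P Q P' Q' = 0 →
    max P.natDegree Q.natDegree = 1 → max P'.natDegree Q'.natDegree = 1 →
    ∀ u v : ℂ, P.eval u * v = Q.eval u ↔ P'.eval v * u = Q'.eval v

/-- **DIA**. Same curve `C`, `e = e' = 1`. `p := |(A ∩ B) \ C|`, `α := |(A \ B) \ C|`, `β := |(B \ A) \ C|` (`A = PA M`, `B = PB M`).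
`|A \ C| = l - t = a - 1` and `A \ C` is the disjoint union of `(A ∩ B) \ C` and `(A \ B) \ C`; the same for `B` (TRB:
`|HC y x (tr M) P' Q'| = |HB x y M P' Q'|`, `|PA (tr M)| = |B|`, and by the equivalence `HB` = points of `B` on `C`).
`|A \ B| - α = |(A \ B) ∩ C|`: the map `z ↦ z.2` sends these points into the set of `sA` (row `z.2` has at least `2` points because
`z ∈ M`, `row ≠ 1`), and is injective on them: `z, z'` in the same row `v`, `z.1 ≠ z'.1`: `P'(v) x z.1 = Q'(v) = P'(v) x z'.1`, so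
`P'(v) = 0 = Q'(v)`, not coprime. In the same way `z ↦ z.1` is injective on `(B \ A) ∩ C` (`P(u) = Q(u) = 0` otherwise). -/
def DIA_stmt : Prop :=
  TRA_stmt → TRB_stmt →
  ∀ (h h' : ℕ) (x : Fin h → ℂ) (y : Fin h' → ℂ) (M : Finset (Fin h × Fin h')) (P Q P' Q' : ℂ[X]) (a b : ℕ),
    Function.Injective x → Function.Injective y → Cv x y M P Q a → Cv y x (tr M) P' Q' b →
    max P.natDegree Q.natDegree = 1 → max P'.natDegree Q'.natDegree = 1 →
    (∀ u v : ℂ, P.eval u * v = Q.eval u ↔ P'.eval v * u = Q'.eval v) →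
    ∃ p α β : ℕ, p ≤ (PA M ∩ PB M).card ∧ a = 1 + p + α ∧ b = 1 + p + β ∧
      α ≤ (PA M \ PB M).card ∧ (PA M \ PB M).card ≤ sA M + α ∧
      β ≤ (PB M \ PA M).card ∧ (PB M \ PA M).card ≤ sB M + β

/-- **JNT**. The joint condition. `e = 0`: ED0 gives `|A ∩ B| ≤ a + 1 ≤ a b + 1` if `b ≥ 1`; if `b = 0`, then `e' ≤ b = 0`
(`e' + l' = b + t'`, `t' ≤ l'`) and ED0 for `tr M` gives `|A ∩ B| ≤ b + 1 = 1` (TRB). `e' = 0`: in the same way. Both `≥ 1`,
`RR ≠ 0`: `A ∩ B ⊆ (A \ HC) ∪ (B \ HB) ∪ (HC ∩ HB)`, `|A \ HC| = a - e`, `|B \ HB| = b - e'` (TRB), CNT: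
`|A ∩ B| ≤ (a - e) + (b - e') + e' e + 1 ≤ a b + 1` (`a = e + u`, `b = e' + w`: `a b = e e' + e w + u e' + u w`).
`RR = 0`: RZ1, RZ2, DIA. -/
def JNT_stmt : Prop :=
  TRA_stmt → TRB_stmt → ED0_stmt → HME_stmt → CNT_stmt → RZ1_stmt → RZ2_stmt → DIA_stmt →
  ∀ (h h' : ℕ) (x : Fin h → ℂ) (y : Fin h' → ℂ) (M : Finset (Fin h × Fin h')) (P Q P' Q' : ℂ[X]) (a b : ℕ),
    Function.Injective x → Function.Injective y → Cv x y M P Q a → Cv y x (tr M) P' Q' b → Jt M a b

/-- **EXM**. Every finite set has a matrix: `X = Z.image fst`, `Y = Z.image snd`, `x`, `y` the inverses of `X.equivFin`,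
`Y.equivFin` (as in `FP97.exists_config`), `M = {(k, m) : (x k, y m) ∈ Z}`; `ZZ x y M = Z` because every point of `Z` is
`(x k, y m)`; `|M| = |Z|` as `z ↦ (x z.1, y z.2)` is injective; every `x k` is the first coordinate of a point of `Z`. -/
def EXM_stmt : Prop :=
  ∀ Z : Finset (ℂ × ℂ), ∃ (h h' : ℕ) (x : Fin h → ℂ) (y : Fin h' → ℂ) (M : Finset (Fin h × Fin h')),
    Function.Injective x ∧ Function.Injective y ∧ (∀ k, 1 ≤ col M k) ∧ (∀ m, 1 ≤ row M m) ∧ M.card = Z.card ∧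
    ZZ x y M = Z

/-- the first part, affine -/
def One : Prop :=
  ∀ Z : Finset (ℂ × ℂ), ∃ (h h' : ℕ) (M : Finset (Fin h × Fin h')) (a b : ℕ), Joint M a b Z.card ∧
    ∀ i j, (i ≤ 1 ∨ j ≤ 1 ∨ 2 * h ≤ i + 1 + a ∨ 2 * h' ≤ j + 1 + b) → AH Z i j = Theta M a b i j

/-- **PT1**. EXM; EXC for `(x, y, M)` and for `(y, x, tr M)`; TFO for the formula. `Joint`: `a_eq` is HOR, `b_le`, `b_eq` are
`Cv.le` and HOR for `tr M` with TRB (`|PA (tr M)| = |PB M|`, `mA (tr M) = mB M`), `joint` is JNT. The hypotheses are the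
conclusions of the rows. -/
def PT1_stmt : Prop :=
  EXM_stmt → TRA_stmt → TRB_stmt →
  (∀ (h h' : ℕ) (x : Fin h → ℂ) (y : Fin h' → ℂ) (M : Finset (Fin h × Fin h')),
    Function.Injective x → Function.Injective y → ∃ (P Q : ℂ[X]) (a : ℕ), Cv x y M P Q a) →
  (∀ (h h' : ℕ) (x : Fin h → ℂ) (y : Fin h' → ℂ) (M : Finset (Fin h × Fin h')) (P Q : ℂ[X]) (a : ℕ),
    Function.Injective x → Function.Injective y → Cv x y M P Q a → mA M ≤ a ∨ a + mA M = (PA M).card) →
  (∀ (h h' : ℕ) (x : Fin h → ℂ) (y : Fin h' → ℂ) (M : Finset (Fin h × Fin h')) (P Q P' Q' : ℂ[X]) (a b : ℕ),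
    Function.Injective x → Function.Injective y → Cv x y M P Q a → Cv y x (tr M) P' Q' b → Jt M a b) →
  (∀ (h h' : ℕ) (x : Fin h → ℂ) (y : Fin h' → ℂ) (M : Finset (Fin h × Fin h')) (P Q P' Q' : ℂ[X]) (a b : ℕ),
    Function.Injective x → Function.Injective y → (∀ k, 1 ≤ col M k) → (∀ m, 1 ≤ row M m) →
    Cv x y M P Q a → Cv y x (tr M) P' Q' b →
    ∀ i j, (i ≤ 1 ∨ j ≤ 1 ∨ 2 * h ≤ i + 1 + a ∨ 2 * h' ≤ j + 1 + b) → AH (ZZ x y M) i j = Theta M a b i j) → One

/-! ### part C: the realisation -/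

/-- **HZL**. If `a + mA = l`, the horizontal line of a row with `mA` points of `PA M` is a curve with `a`, for all coordinates.
If `mA M = 0` (then `l = 0`, as a point of `PA M` gives `mA ≥ 1`; `a = 0`): `P = 1`, `Q = 0`, `HC ⊆ PA = ∅`. Otherwise take `m`
with `mA M = ((PA M).filter (·.2 = m)).card`, `P = 1`, `Q = C (y m)`: `HC x y M 1 (C (y m)) = (PA M).filter (·.2 = m)` (`y` is
injective), `0 + l = a + mA`. -/
def HZL_stmt : Prop :=
  ∀ (h h' : ℕ) (x : Fin h → ℂ) (y : Fin h' → ℂ) (M : Finset (Fin h × Fin h')) (a : ℕ), Function.Injective y →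
    2 * a ≤ (PA M).card → a + mA M = (PA M).card → ∃ P Q : ℂ[X], Cv x y M P Q a

/-- **ROT**. Choice of roots: if every row `m` has at most `a` points of a set `S` whose points are in different columns, there
are numbers `ρ k` with `(ρ k)^a = 1`, different for two points of `S` in the same row. (Let `s(k)` be the number of points
`z' ∈ S` with `z'.2 = m` and `z'.1 < k` for the point `(k, m) ∈ S` of the column `k`; `s(k) < a`, `s` is strictly increasing along
a row; `ρ k = exp(2πi s(k) / a) = ζ^s(k)`, `Complex.isPrimitiveRoot_exp`, `IsPrimitiveRoot.pow_inj`. Or an injection of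
`{z ∈ S, z.2 = m}` into `Polynomial.nthRootsFinset a 1` (card `a`, `IsPrimitiveRoot.card_nthRootsFinset`) for every `m`.) -/
def ROT_stmt : Prop :=
  ∀ (h h' a : ℕ) (S : Finset (Fin h × Fin h')), 1 ≤ a → (∀ z ∈ S, ∀ z' ∈ S, z.1 = z'.1 → z = z') →
    (∀ m, (S.filter fun z => z.2 = m).card ≤ a) →
    ∃ ρ : Fin h → ℂ, (∀ k, (ρ k) ^ a = 1) ∧
      ∀ z ∈ S, ∀ z' ∈ S, z.2 = z'.2 → ρ z.1 = ρ z'.1 → z = z'

/-- **RE1**. `C : y = x^a`, i.e. `(P, Q) = (1, X^a)`. `ρ` from ROT for `S = PA M` (`((PA M).filter (·.2 = m)).card ≤ mA M ≤ a`).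
`y m = (m + 2)^a`; `x k = (m + 2) ρ k` for the point `(k, m) ∈ PA M` if the column has one, `x k = h' + 3 + k` otherwise
(`if hk : ∃ m, (k, m) ∈ PA M then .. else ..`; the `m` is unique since the column has one point). Every point of `PA M` is on `C`:
`(m + 2)^a ρ^a`. So `HC = PA M`, `e = a` (`natDegree_X_pow`). `x` injective: `|x k| = m + 2 ≤ h' + 1` resp. `h' + 3 + k`; equal
moduli: same row, then `ρ`. `y` injective: `a ≥ 1`, `pow_left_injective` on `ℕ`. -/
def RE1_stmt : Prop :=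
  ROT_stmt → ∀ (h h' : ℕ) (M : Finset (Fin h × Fin h')) (a : ℕ), 1 ≤ a → mA M ≤ a → 2 * a ≤ (PA M).card →
    ∃ (x : Fin h → ℂ) (y : Fin h' → ℂ), Function.Injective x ∧ Function.Injective y ∧ Cv x y M 1 (X ^ a) a

/-- **OMG**. The common points of `y = x^a`, `x = y^(-b)`: for a set `S` of at most `a b + 1` points there are `ω z` with
`(ω z)^(a b + 1) = 1`, different for different `z ∈ S`; then also the `(ω z)^a` are different, because
`((ω z)^a)^b * ω z = 1`, so `ω z` is determined by `(ω z)^a`. (Injection of `S` into `nthRootsFinset (a*b+1) 1`.) -/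
def OMG_stmt : Prop :=
  ∀ (h h' a b : ℕ) (S : Finset (Fin h × Fin h')), S.card ≤ a * b + 1 →
    ∃ ω : Fin h × Fin h' → ℂ, (∀ z, (ω z) ^ (a * b + 1) = 1) ∧
      (∀ z ∈ S, ∀ z' ∈ S, ω z = ω z' → z = z') ∧ (∀ z ∈ S, ∀ z' ∈ S, (ω z) ^ a = (ω z') ^ a → z = z')

/-- **RE2**. `C : y = x^a`, `C' : x y^b = 1`, i.e. the pairs `(1, X^a)` and `(X^b, 1)`. `ρ` from ROT for `S = PA M`, `a`;
`ρ'` from ROT for `tr M`: `S = PA (tr M)`, `b` (`mA (tr M) = mB M`); `ω` from OMG for `S = PA M ∩ PB M`.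
`x k = ω (k,m)` if `(k, m) ∈ PA ∩ PB`; `= (m + 2) ρ k` if `(k, m) ∈ PA \ PB`; `= ((k + 5/2)^b)⁻¹` if the column has no point of `PA`
(the `m` is unique: `col = 1`).
`y m = (ω (k,m))^a` if `(k, m) ∈ PA ∩ PB`; `= (k + 5/2) ρ' m` if `(k, m) ∈ PB \ PA`; `= (m + 2)^a` if the row has no point of `PB`.
Points of `PA`: `(k,m) ∈ PA ∩ PB`: `y = x^a`. `(k,m) ∈ PA \ PB`: the row `m` has at least `2` points, so no point of `PB`:
`y m = (m+2)^a = x^a`. Points of `PB`: `(k, m) ∈ PA ∩ PB`: `y^b x = ω^(ab+1) = 1`; `(k,m) ∈ PB \ PA`: column `k` has at least `2`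
points, `x k = ((k+5/2)^b)⁻¹`, `y^b = (k+5/2)^b`. So `HC = PA`, and for `tr M` the same.
`x` injective: moduli `1`, `m + 2 ≥ 2`, `< 1` (three classes), inside a class: OMG; same `m` (modulus) and `ρ`; `b ≥ 1`.
`y` injective: moduli `1`; `k + 5/2` (not an integer); the integer `(m+2)^a ≥ 2`. Inside a class: OMG; same `k` and `ρ'`; `a ≥ 1`. -/
def RE2_stmt : Prop :=
  ROT_stmt → OMG_stmt → TRA_stmt → TRB_stmt →
  ∀ (h h' : ℕ) (M : Finset (Fin h × Fin h')) (a b : ℕ), 1 ≤ a → mA M ≤ a → 2 * a ≤ (PA M).card →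
    1 ≤ b → mB M ≤ b → 2 * b ≤ (PB M).card → (PA M ∩ PB M).card ≤ a * b + 1 →
    ∃ (x : Fin h → ℂ) (y : Fin h' → ℂ), Function.Injective x ∧ Function.Injective y ∧ Cv x y M 1 (X ^ a) a ∧
      Cv y x (tr M) (X ^ b) 1 b

/-- **SEL**. Selection: `q` elements of `S` with different values of `f`, if `f` has at least `q` values on `S`. (For every value
choose one preimage, `Finset.exists_subset_injOn_image_eq..` / `(S.image f)` with a section, then a subset with `q`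
elements, `Finset.exists_subset_card_eq`.) -/
def SEL_stmt : Prop :=
  ∀ (n m : ℕ) (S : Finset (Fin n × Fin m)) (q : ℕ),
    (q ≤ (S.image Prod.snd).card → ∃ T ⊆ S, T.card = q ∧ ∀ z ∈ T, ∀ z' ∈ T, z.2 = z'.2 → z = z') ∧
    (q ≤ (S.image Prod.fst).card → ∃ T ⊆ S, T.card = q ∧ ∀ z ∈ T, ∀ z' ∈ T, z.1 = z'.1 → z = z')

/-- **RE3**. The second alternative; both curves are the diagonal `y = x`, pairs `(1, X)`, `(1, X)`. Let `A = PA M`, `B = PB M`.
The set of `sA` is `(A \ B).image snd` (row with `≥ 2` points), the set of `sB` is `(B \ A).image fst`. By SEL take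
`T₁ ⊆ A \ B` with `|A \ B| - α` elements in different rows, `T₂ ⊆ B \ A` with `|B \ A| - β` elements in different columns, and
`T₃ ⊆ A ∩ B` with `|A ∩ B| - p` elements. Coordinates (the `m` for `k`, resp. `k` for `m`, is unique):
`x k = -(k+1)` if the column has no point of `A`; for `(k,m) ∈ A`: `m + 1` on `T₁`, `k + 3/2` on `(A \ B) \ T₁`, `I (k+1)` on `T₃`,
`k + 5/4` on `(A ∩ B) \ T₃`.
`y m = m + 1` if the row has no point of `B`; for `(k,m) ∈ B`: `-(k+1)` on `T₂`, `-(m+3/2)` on `(B \ A) \ T₂`, `I (k+1)` on `T₃`,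
`-(m+5/4)` on `(A ∩ B) \ T₃`.
A point of `A` is on the diagonal iff it is in `T₁ ∪ T₃`; a point of `B` iff it is in `T₂ ∪ T₃`. So
`1 + l = 1 + |A \ B| + |A ∩ B| = a + (|A \ B| - α) + (|A ∩ B| - p)`, and the same for `b`. Injectivity: compare the classes
(positive integers, negative integers, positive/negative half integers, quarters, imaginary); `T₁`: different rows;
`T₂`: different columns. -/
def RE3_stmt : Prop :=
  SEL_stmt → TRA_stmt → TRB_stmt →
  ∀ (h h' : ℕ) (M : Finset (Fin h × Fin h')) (a b p α β : ℕ), 2 * a ≤ (PA M).card → 2 * b ≤ (PB M).card →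
    p ≤ (PA M ∩ PB M).card → a = 1 + p + α → b = 1 + p + β →
    α ≤ (PA M \ PB M).card → (PA M \ PB M).card ≤ sA M + α →
    β ≤ (PB M \ PA M).card → (PB M \ PA M).card ≤ sB M + β →
    ∃ (x : Fin h → ℂ) (y : Fin h' → ℂ), Function.Injective x ∧ Function.Injective y ∧ Cv x y M 1 X a ∧
      Cv y x (tr M) 1 X b

/-- **REA**. All data have coordinates. If `a + mA ≠ l` then `a ≥ mA`, and `a ≥ 1` (if `a = 0` then `mA = 0`, no point in `PA M`,
`l = 0 = a + mA`). The same for `b`. Four cases: both equalities: `x k = k`, `y m = m`, HZL twice (`tr M` with TRB); only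
`b + mB = l'`: RE1 and HZL for `tr M`; only `a + mA = l`: RE1 for `tr M` (gives `y`, `x`) and HZL; none: RE2 or RE3 according to
`Jt`. -/
def REA_stmt : Prop :=
  TRA_stmt → TRB_stmt → HZL_stmt →
  (∀ (h h' : ℕ) (M : Finset (Fin h × Fin h')) (a : ℕ), 1 ≤ a → mA M ≤ a → 2 * a ≤ (PA M).card →
    ∃ (x : Fin h → ℂ) (y : Fin h' → ℂ), Function.Injective x ∧ Function.Injective y ∧ Cv x y M 1 (X ^ a) a) →
  (∀ (h h' : ℕ) (M : Finset (Fin h × Fin h')) (a b : ℕ), 1 ≤ a → mA M ≤ a → 2 * a ≤ (PA M).card →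
    1 ≤ b → mB M ≤ b → 2 * b ≤ (PB M).card → (PA M ∩ PB M).card ≤ a * b + 1 →
    ∃ (x : Fin h → ℂ) (y : Fin h' → ℂ), Function.Injective x ∧ Function.Injective y ∧ Cv x y M 1 (X ^ a) a ∧
      Cv y x (tr M) (X ^ b) 1 b) →
  (∀ (h h' : ℕ) (M : Finset (Fin h × Fin h')) (a b p α β : ℕ), 2 * a ≤ (PA M).card → 2 * b ≤ (PB M).card →
    p ≤ (PA M ∩ PB M).card → a = 1 + p + α → b = 1 + p + β →
    α ≤ (PA M \ PB M).card → (PA M \ PB M).card ≤ sA M + α →
    β ≤ (PB M \ PA M).card → (PB M \ PA M).card ≤ sB M + β →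
    ∃ (x : Fin h → ℂ) (y : Fin h' → ℂ), Function.Injective x ∧ Function.Injective y ∧ Cv x y M 1 X a ∧
      Cv y x (tr M) 1 X b) →
  ∀ (h h' : ℕ) (M : Finset (Fin h × Fin h')) (a b r : ℕ), Joint M a b r →
    ∃ (x : Fin h → ℂ) (y : Fin h' → ℂ) (P Q P' Q' : ℂ[X]), Function.Injective x ∧ Function.Injective y ∧
      Cv x y M P Q a ∧ Cv y x (tr M) P' Q' b

/-- the second part, affine -/
def Two : Prop :=
  ∀ (h h' : ℕ) (M : Finset (Fin h × Fin h')) (a b r : ℕ), Joint M a b r → ∃ Z : Finset (ℂ × ℂ), Z.card = r ∧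
    ∀ i j, (i ≤ 1 ∨ j ≤ 1 ∨ 2 * h ≤ i + 1 + a ∨ 2 * h' ≤ j + 1 + b) → AH Z i j = Theta M a b i j

/-- **PT2**. `Z = ZZ x y M` with the coordinates of REA; `|Z| = |M| = r` by injectivity; TFO. -/
def PT2_stmt : Prop :=
  (∀ (h h' : ℕ) (M : Finset (Fin h × Fin h')) (a b r : ℕ), Joint M a b r →
    ∃ (x : Fin h → ℂ) (y : Fin h' → ℂ) (P Q P' Q' : ℂ[X]), Function.Injective x ∧ Function.Injective y ∧
      Cv x y M P Q a ∧ Cv y x (tr M) P' Q' b) →
  (∀ (h h' : ℕ) (x : Fin h → ℂ) (y : Fin h' → ℂ) (M : Finset (Fin h × Fin h')) (P Q P' Q' : ℂ[X]) (a b : ℕ),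
    Function.Injective x → Function.Injective y → (∀ k, 1 ≤ col M k) → (∀ m, 1 ≤ row M m) →
    Cv x y M P Q a → Cv y x (tr M) P' Q' b →
    ∀ i j, (i ≤ 1 ∨ j ≤ 1 ∨ 2 * h ≤ i + 1 + a ∨ 2 * h' ≤ j + 1 + b) → AH (ZZ x y M) i j = Theta M a b i j) → Two

/-- **HIL**. Passage to `ℙ¹ × ℙ¹`: `exists_good`, `hilbert_eq_DV`, `aff_inj` as in the proof of `FP97.part_one` (the set
`{z | ∃ P ∈ Y, aff t s P = z}` is the coercion of `Y.image (aff t s)`), and `Z.image pt`, `pt_good`, as in `FP97.part_two`. -/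
def HIL_stmt : Prop :=
  (∀ Y : Finset Point, ∃ Z : Finset (ℂ × ℂ), Z.card = Y.card ∧ ∀ i j, hilbert (doubleIdeal Y) i j = AH Z i j) ∧
  (∀ Z : Finset (ℂ × ℂ), ∃ Y : Finset Point, Y.card = Z.card ∧ ∀ i j, hilbert (doubleIdeal Y) i j = AH Z i j)

/-- the final theorem -/
def Fin_stmt : Prop :=
  ∀ r : ℕ,
    (∀ Y : Finset Point, Y.card = r → ∃ (h h' : ℕ) (M : Finset (Fin h × Fin h')) (a b : ℕ), Joint M a b r ∧
      ∀ i j, (i ≤ 1 ∨ j ≤ 1 ∨ 2 * h ≤ i + 1 + a ∨ 2 * h' ≤ j + 1 + b) →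
        hilbert (doubleIdeal Y) i j = Theta M a b i j) ∧
    (∀ (h h' : ℕ) (M : Finset (Fin h × Fin h')) (a b : ℕ), Joint M a b r → ∃ Y : Finset Point, Y.card = r ∧
      ∀ i j, (i ≤ 1 ∨ j ≤ 1 ∨ 2 * h ≤ i + 1 + a ∨ 2 * h' ≤ j + 1 + b) →
        hilbert (doubleIdeal Y) i j = Theta M a b i j)

end

end Pool.Agent.helper29.JZ
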